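import Pool.Agent.Y650.TH.Defs
import Pool.Agent.H670NU.Par

/-!
# Normal form for languages decided with one round of parallel queries to NP
-/

set_option autoImplicit false

namespace Pool.Agent.Y620.TH

open Pool.Agent.NPC Pool.Agent.NPC.H559U Pool.Agent.H670NU Pool.Agent.Y650.TH

/-- Exactly `c` of the true entries. -/
theorem exists_marks : ∀ (ans : List Bool) (c : ℕ), c ≤ cnt ans → ∃ b : List Bool,
    b.length = ans.length ∧ cnt b = c ∧ ∀ j, b.getD j false = true → ans.getD j false = true
  | [], c, h => ⟨[], rfl, by simp [cnt] at h ⊢; omega, by simp⟩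
  | false :: ans, c, h => by
    obtain ⟨b, h1, h2, h3⟩ := exists_marks ans c (by simpa [cnt] using h)
    refine ⟨false :: b, by simp [h1], by simpa [cnt] using h2, fun j hj => ?_⟩
    cases j with
    | zero => simp at hj
    | succ j => simpa using h3 j (by simpa using hj)
  | true :: ans, 0, _ => by
    refine ⟨List.replicate (ans.length + 1) false, by simp, by simp [cnt], fun j hj => ?_⟩
    rw [List.getD_eq_getElem?_getD, List.getElem?_replicate] at hj
    split_ifs at hj <;> simp at hj
  | true :: ans, c + 1, h => by
    obtain ⟨b, h1, h2, h3⟩ := exists_marks ans c (by simpa [cnt] using h)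
    refine ⟨true :: b, by simp [h1], by simpa [cnt] using h2, fun j hj => ?_⟩
    cases j with
    | zero => simp
    | succ j => simpa using h3 j (by simpa using hj)

/-! ### The verifier -/

/-- The test of a certificate: a list of marks, with certificates for the marked queries. -/
def tst (fl : Bool) (g : List Bool × List Bool → Bool) (p : Polynomial ℕ)
    (e : List Bool → List Bool) (A : ℕ × List Bool) (qs : List (List Bool))
    (cs : List (Bool × List Bool)) : Bool :=
  (decide (cs.length = qs.length) && decide ((cs.filter fun c => c.1).length = A.1)) &&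
  ((List.range qs.length).all (fun j => !(cs.getD j (false, [])).1 ||
    (decide ((cs.getD j (false, [])).2.length ≤ p.eval (qs.getD j []).length) &&
      g (qs.getD j [], (cs.getD j (false, [])).2))) &&
  (fl || decide (e (bits (A.2, cs.map fun c => c.1)) = [true])))

/-- The verifier. -/
def vr (fl : Bool) (g : List Bool × List Bool → Bool) (p : Polynomial ℕ)
    (q e : List Bool → List Bool) (z : List Bool × List Bool) : Bool :=
  (unbits (ℕ × List Bool) z.1).elim false fun A =>
    (unbits (List (List Bool)) (q A.2)).elim false fun qs =>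
      (unbits (List (Bool × List Bool)) z.2).elim false fun cs => tst fl g p e A qs cs

attribute [local fun_prop] poly_bits poly_unpair' poly_unbits' poly_valB'
attribute [local irreducible] unpair unbits valB bits

theorem poly_tst (fl : Bool) {g : List Bool × List Bool → Bool} (hg : Poly g) (p : Polynomial ℕ)
    {e : List Bool → List Bool} (he : Poly e) :
    Poly (fun y : (ℕ × List Bool) × List (List Bool) × List (Bool × List Bool) =>
      tst fl g p e y.1 y.2.1 y.2.2) := by
  unfold tst
  refine Poly.and (by fun_prop) (Poly.and ?_ (Poly.or (NPC.Poly.const _) ?_))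
  · refine Poly.all (p := fun (y : (ℕ × List Bool) × List (List Bool) ×
      List (Bool × List Bool)) j => !(y.2.2.getD j (false, [])).1 ||
      (decide ((y.2.2.getD j (false, [])).2.length ≤ p.eval (y.2.1.getD j []).length) &&
      g (y.2.1.getD j [], (y.2.2.getD j (false, [])).2))) (UPoly.range (UPoly.length (by fun_prop))) ?_
    have h1 : Poly (fun z : ((ℕ × List Bool) × List (List Bool) ×
      List (Bool × List Bool)) × ℕ => z.1.2.2.getD z.2 (false, [])) := by fun_prop
    have h2 : Poly (fun z : ((ℕ × List Bool) × List (List Bool) ×
      List (Bool × List Bool)) × ℕ => z.1.2.1.getD z.2 []) := by fun_prop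
    refine Poly.or (Poly.not (Poly.fst h1)) (Poly.and ?_ (hg.comp (Poly.pair h2 (Poly.snd h1))))
    exact Poly.decide_le (Poly.length (Poly.snd h1)) ((UPoly.length h2).eval p).toPoly
  · refine Poly.decide_eq (he.comp ?_) (NPC.Poly.const _)
    fun_prop

theorem poly_vr (fl : Bool) {g : List Bool × List Bool → Bool} (hg : Poly g) (p : Polynomial ℕ)
    {q e : List Bool → List Bool} (hq : Poly q) (he : Poly e) : Poly (vr fl g p q e) := by
  unfold vr
  refine NPC.Poly.optElim (h := fun (z : List Bool × List Bool) (A : ℕ × List Bool) =>
      (unbits (List (List Bool)) (q A.2)).elim false fun qs =>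
      (unbits (List (Bool × List Bool)) z.2).elim false fun cs => tst fl g p e A qs cs)
      (by fun_prop) (NPC.Poly.const _) ?_
  refine NPC.Poly.optElim (α := (List Bool × List Bool) × ℕ × List Bool)
    (o := fun y => unbits (List (List Bool)) (q y.2.2)) (h := fun y qs =>
      (unbits (List (Bool × List Bool)) y.1.2).elim false fun cs => tst fl g p e y.2 qs cs)
      (poly_unbits' (hq.comp (by fun_prop))) (NPC.Poly.const _) ?_
  refine NPC.Poly.optElim (α := ((List Bool × List Bool) × ℕ × List Bool) × List (List Bool))
    (o := fun y => unbits (List (Bool × List Bool)) y.1.1.2)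
    (h := fun y cs => tst fl g p e y.1.2 y.2 cs) (by fun_prop) (NPC.Poly.const _) ?_
  exact (poly_tst fl hg p he).comp (f := fun y : (((List Bool × List Bool) × ℕ × List Bool) ×
    List (List Bool)) × List (Bool × List Bool) => (y.1.1.2, y.1.2, y.2)) (by fun_prop)

/-- The language. -/
def cen (fl : Bool) (g : List Bool × List Bool → Bool) (p : Polynomial ℕ)
    (q e : List Bool → List Bool) (P : Polynomial ℕ) : Set (List Bool) :=
  {x | ∃ w : List Bool, w.length ≤ P.eval x.length ∧ vr fl g p q e (x, w) = true}

theorem inNP_cen (fl : Bool) {g : List Bool × List Bool → Bool} (hg : NPC.Poly g)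
    (p : Polynomial ℕ) {q e : List Bool → List Bool} (hq : NPC.Poly q) (he : NPC.Poly e)
    (P : Polynomial ℕ) : InNP (cen fl g p q e P) :=
  H611R2.inNP_of_poly (vr fl g p q e) (poly_vr fl hg p hq he) P fun _ => Iff.rfl

theorem mem_cen {O : Set (List Bool)} {g : List Bool × List Bool → Bool} {p : Polynomial ℕ}
    (hO : ∀ x, x ∈ O ↔ ∃ w : List Bool, w.length ≤ p.eval x.length ∧ g (x, w) = true)
    {q : List Bool → List Bool} (hq : NPC.Poly q) (e : List Bool → List Bool) :
    ∃ P : Polynomial ℕ, ∀ (fl : Bool) (c : ℕ) (x : List Bool) (qs : List (List Bool)),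
      q x = bits qs →
      (bits (c, x) ∈ cen fl g p q e P ↔ ∃ b : List Bool, b.length = qs.length ∧ cnt b = c ∧
        (∀ j, b.getD j false = true → qs.getD j [] ∈ O) ∧
        (fl = true ∨ e (bits (x, b)) = [true])) := by
  classical
  have hQ : NPC.Poly (fun x : List Bool => (unbits (ℕ × List Bool) x).elim none
      fun A => unbits (List (List Bool)) (q A.2)) :=
    NPC.Poly.optElim poly_unbits (NPC.Poly.const _) (poly_unbits' (hq.comp (by fun_prop)))
  obtain ⟨r, hr⟩ := hQ.sz_le
  refine ⟨certBound p r, fun fl c x qs hqs => ?_⟩
  unfold cen vr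
  simp only [Set.mem_ofPred_eq, unbits_bits, Option.elim_some, hqs]
  constructor
  · rintro ⟨w, _, h⟩
    cases hw : unbits (List (Bool × List Bool)) w with
    | none => rw [hw] at h; simp at h
    | some cs =>
      rw [hw] at h
      simp only [Option.elim_some, tst, Bool.and_eq_true, decide_eq_true_eq,
        List.all_eq_true, List.mem_range, Bool.or_eq_true, Bool.not_eq_true'] at h
      obtain ⟨⟨h1, h2⟩, h3, h4⟩ := h
      refine ⟨cs.map fun c => c.1, by simpa using h1, by rw [cnt_map_fst]; exact h2,
        fun j hj => ?_, h4⟩
      have hj' := hj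
      rw [getD_map_fst] at hj
      have hjl : j < qs.length := by
        by_contra hcon
        rw [List.getD_eq_default _ _ (by simpa [h1] using hcon)] at hj'
        exact Bool.false_ne_true hj'
      rw [hO]
      rcases h3 j hjl with h6 | h6
      · rw [hj] at h6; simp at h6
      · exact ⟨_, h6⟩
  · rintro ⟨b, hb1, hb2, hb3, hb4⟩
    have hwit : ∀ x : List Bool, ∃ w : List Bool, w.length ≤ p.eval x.length ∧
        (x ∈ O → g (x, w) = true) := by
      intro x
      by_cases hx : x ∈ O
      · obtain ⟨w, hw, hg⟩ := (hO x).1 hx
        exact ⟨w, hw, fun _ => hg⟩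
      · exact ⟨[], by simp, fun h => absurd h hx⟩
    choose wit hwit1 hwit2 using hwit
    set cs : List (Bool × List Bool) := b.zip (qs.map wit) with hcs
    have hlen : cs.length = qs.length := by simp [hcs, hb1]
    have hfst : (cs.map fun c => c.1) = b := by
      rw [hcs]
      have := List.map_fst_zip (l₁ := b) (l₂ := qs.map wit) (by simp [hb1])
      exact this
    refine ⟨bits cs, ?_, ?_⟩
    · -- the length of the certificate
      have h1 := hr (bits (c, x))
      rw [unbits_bits, Option.elim_some, hqs, unbits_bits] at h1
      have h2 := sz_listBool_le (bits (c, x))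
      have h3 := h1.trans (eval_mono r h2)
      have h4 : sz qs ≤ sz (some qs) := by
        simp
      set B := r.eval (4 * (bits (c, x)).length + 1) with hB
      have h5 : sz qs ≤ B := h4.trans h3
      rw [bits_length]
      have h6 : sz cs ≤ cs.length * (4 * p.eval B + 10) + 1 := by
        refine sz_le_length_mul cs (4 * p.eval B + 9) (fun c hc => ?_) |>.trans ?_
        · obtain ⟨c1, c2⟩ := c
          have hc2 := (List.of_mem_zip (hcs ▸ hc)).2
          rw [List.mem_map] at hc2
          obtain ⟨x, hx, rfl⟩ := hc2
          rw [sz_pair]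
          have e1 := sz_bool_le c1
          have e2 := sz_listBool_le (wit x)
          have e3 := hwit1 x
          have e4 : x.length ≤ B := by
            have := length_lt_sz x
            have := sz_le_of_mem hx
            omega
          have e5 := eval_mono p e4
          omega
        · have : cs.length * (4 * p.eval B + 9 + 1) = cs.length * (4 * p.eval B + 10) := by ring
          omega
      have h7 : cs.length ≤ B := by
        have := length_lt_sz qs
        omega
      unfold certBound
      rw [Polynomial.eval_comp, Polynomial.eval_comp]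
      simp only [Polynomial.eval_add, Polynomial.eval_mul, Polynomial.eval_C, Polynomial.eval_X]
      rw [← hB]
      exact h6.trans (Nat.add_le_add_right (Nat.mul_le_mul_right _ h7) _)
    · rw [unbits_bits]
      simp only [Option.elim_some, tst, Bool.and_eq_true, decide_eq_true_eq,
        List.all_eq_true, List.mem_range, Bool.or_eq_true, Bool.not_eq_true']
      refine ⟨⟨hlen, ?_⟩, fun j hj => ?_, by rw [hfst]; exact hb4⟩
      · rw [← cnt_map_fst, hfst, hb2]
      · have e0 : (cs.getD j (false, [])).1 = b.getD j false := by
          rw [← getD_map_fst, hfst]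
        have e1 : (cs.getD j (false, [])).2 = wit (qs.getD j []) := by
          have hj2 : j < (b.zip (qs.map wit)).length := by rw [← hcs, hlen]; exact hj
          rw [hcs, List.getD_eq_getElem _ _ hj2, List.getElem_zip, List.getD_eq_getElem _ _ hj]
          simp
        rw [e0, e1]
        by_cases hx : b.getD j false = true
        · right
          exact ⟨hwit1 _, hwit2 _ (hb3 j hx)⟩
        · left
          simpa using hx

theorem cnt_le_length (b : List Bool) : cnt b ≤ b.length := List.length_filter_le _ _

/-- **Normal form.** -/
theorem nf : S_NF := by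
  classical
  rintro L ⟨O, q, e, hO, hq, he, hL⟩
  have hq' : NPC.Poly q := NPC.poly_of_polyTime hq
  have he' : NPC.Poly e := NPC.poly_of_polyTime he
  obtain ⟨g, p, hg, hgO⟩ := InNP.exists_poly hO
  obtain ⟨P, hP⟩ := mem_cen hgO hq' e
  obtain ⟨fA, hfA, hA⟩ := hardI_SAT3 _ (inNP_cen false hg p hq' he' P)
  obtain ⟨fB, hfB, hB⟩ := hardI_SAT3 _ (inNP_cen true hg p hq' he' P)
  have hfA' : NPC.Poly fA := PC.comp (g := fA) (f := fun x : List Bool => x) hfA PC.rawOut609
  have hfB' : NPC.Poly fB := PC.comp (g := fB) (f := fun x : List Bool => x) hfB PC.rawOut609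
  refine ⟨fun x => (List.range ((q x).length + 1)).map fun c =>
    (fA (bits (c, x)), fB (bits (c + 1, x))), ?_, fun x => ?_⟩
  · have h1 : NPC.Poly (fun x => (List.range ((q x).length + 1)).map fun c =>
        (fA (bits (c, x)), fB (bits (c + 1, x)))) := by
      refine NPC.Poly.map (F := fun (x : List Bool) (c : ℕ) =>
        (fA (bits (c, x)), fB (bits (c + 1, x)))) (UPoly.range ?_) (NPC.Poly.pair ?_ ?_)
      · exact UPoly.add (UPoly.length hq') (UPoly.const _)
      · exact hfA'.comp (poly_bits (by fun_prop))
      · exact hfB'.comp (poly_bits (by fun_prop))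
    exact PC.comp (f := fun x : List Bool => x) h1 PC.rawIn
  · obtain ⟨qs, ans, hqs, hans, hLx⟩ := hL x
    have hAns : ans = qs.map fun x => decide (x ∈ O) := by
      clear hqs hLx
      induction hans with
      | nil => rfl
      | cons h _ ih =>
        rw [List.map_cons, ← ih]
        congr 1
        rw [Bool.eq_iff_iff]
        simpa using h
    have hlen : ans.length = qs.length := by rw [hAns]; simp
    have hO2 : ∀ j, ans.getD j false = true → qs.getD j [] ∈ O := by
      intro j
      rw [hAns, List.getD_eq_getElem?_getD, List.getElem?_map, List.getD_eq_getElem?_getD]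
      by_cases hj : j < qs.length
      · simp [hj]
      · simp [hj]
    have hO3 : ∀ b : List Bool, b.length = qs.length →
        (∀ j, b.getD j false = true → qs.getD j [] ∈ O) →
        ∀ j, b.getD j false = true → ans.getD j false = true := by
      intro b hb h j hj
      have hjl : j < qs.length := by
        by_contra hcon
        rw [List.getD_eq_default _ _ (by omega)] at hj
        exact Bool.false_ne_true hj
      have h1 := h j hj
      rw [hAns, List.getD_eq_getElem?_getD, List.getElem?_map]
      rw [List.getD_eq_getElem?_getD] at h1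
      simp only [hjl, List.getElem?_eq_getElem, Option.map_some, Option.getD_some,
        decide_eq_true_eq] at h1 ⊢
      exact h1
    have hcl : cnt ans ≤ (q x).length := by
      have h1 := cnt_le_length ans
      rw [hqs, bits_length]
      have := length_lt_sz qs
      omega
    unfold OrDP
    simp only [List.mem_map, List.mem_range, exists_exists_and_eq_and, ← hA, ← hB,
      hP _ _ _ _ hqs, Bool.false_eq_true, false_or, true_or, and_true]
    rw [hLx]
    constructor
    · intro h
      refine ⟨cnt ans, by omega, ⟨ans, hlen, rfl, hO2, h⟩, ?_⟩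
      rintro ⟨b, hb1, hb2, hb3⟩
      have := filter_le b ans (by omega) (hO3 b hb1 hb3)
      unfold cnt at hb2
      omega
    · rintro ⟨c, hc, ⟨b, hb1, hb2, hb3, hb4⟩, hn⟩
      have h1 := filter_le b ans (by omega) (hO3 b hb1 hb3)
      have h2 : ¬ c + 1 ≤ cnt ans := by
        intro hcon
        obtain ⟨b', h3, h4, h5⟩ := exists_marks ans (c + 1) hcon
        exact hn ⟨b', by omega, h4, fun j hj => hO2 j (h5 j hj)⟩
      have h3 : b = ans := eq_of_filter b ans (by omega) (hO3 b hb1 hb3) (by
        unfold cnt at h2 hb2
        omega)
      rw [← h3]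
      exact hb4

end Pool.Agent.Y620.TH
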